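import Pool.Agent.Q62.VW.Stm

/-! Project VW (helper62), jobs L1 and L5: integrability. -/

set_option autoImplicit false

open MeasureTheory Filter Topology Set Metric
open scoped ContDiff ENNReal

namespace Pool.Agent.Q182.VW

open Pool.Agent.Q62.VW

theorem pow_ball {s : ℝ} (hs : s < 3) (r : ℝ) : IntegrableOn (fun x : E3 => ‖x‖ ^ (-s)) (ball 0 r) := by
  rw [integrableOn_fun_norm_addHaar volume (f := fun y : ℝ => y ^ (-s))]
  have h0 : Module.finrank ℝ E3 - 1 = 2 := by simp
  rw [h0]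
  rcases le_or_gt r 0 with hr | hr
  · rw [Ioo_eq_empty (not_lt.2 hr)]
    exact integrableOn_empty
  have h1 : IntervalIntegrable (fun y : ℝ => y ^ (2 - s)) volume 0 r :=
    intervalIntegral.intervalIntegrable_rpow' (by linarith)
  rw [intervalIntegrable_iff_integrableOn_Ioc_of_le hr.le] at h1
  refine (h1.mono_set Ioo_subset_Ioc_self).congr_fun ?_ measurableSet_Ioo
  intro y hy
  show y ^ (2 - s) = y ^ 2 * y ^ (-s)
  rw [← Real.rpow_natCast, ← Real.rpow_add hy.1]
  norm_num
  ring_nf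

theorem int_of_bd {f : E3 → ℝ} (hf : Measurable f) {C s R : ℝ} (hs : s < 3) (h1 : ∀ x, |f x| ≤ C * ‖x‖ ^ (-s))
    (h2 : ∀ x, R ≤ ‖x‖ → f x = 0) : Integrable f := by
  have h3 : IntegrableOn f (ball 0 R) := by
    refine Integrable.mono' ((pow_ball hs R).const_mul C) hf.aestronglyMeasurable ?_
    exact Eventually.of_forall fun x => h1 x
  rwa [integrableOn_iff_integrable_of_support_subset] at h3
  intro x hx
  rw [mem_ball_zero_iff]
  by_contra h
  exact hx (h2 x (not_lt.1 h))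

theorem q_facts {p : ℝ} (hp : 3 / 2 < p) : 0 < 1 / (p - 1) ∧ 1 / (p - 1) < 2 ∧ 1 / (p - 1) + 1 < 3 ∧
    1 / (p - 1) * p = 1 / (p - 1) + 1 := by
  have h : 0 < p - 1 := by linarith
  have h1 : 1 / (p - 1) < 2 := by
    rw [div_lt_iff₀ h]
    linarith
  refine ⟨by positivity, h1, by linarith, ?_⟩
  field_simp
  ring

section prof

variable {γ p z m : ℝ}

theorem prof_nonneg (hγ : 0 < γ) (r : ℝ) : 0 ≤ prof γ p z m r :=
  Real.rpow_nonneg (div_nonneg (le_max_right _ _) hγ.le) _

theorem prof_zero (hp : 3 / 2 < p) (hz : 0 < z) (hm : 0 < m) {r : ℝ} (hr : z / m ≤ r) : prof γ p z m r = 0 := by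
  have hr0 : 0 < r := lt_of_lt_of_le (by positivity) hr
  have h1 : z / r ≤ m := by
    rw [div_le_iff₀ hm] at hr
    rw [div_le_iff₀ hr0]
    linarith
  unfold prof
  rw [max_eq_right (by linarith), zero_div, Real.zero_rpow (q_facts hp).1.ne']

theorem prof_at_zero (hp : 3 / 2 < p) (hm : 0 < m) : prof γ p z m 0 = 0 := by
  unfold prof
  rw [div_zero, max_eq_right (by linarith), zero_div, Real.zero_rpow (q_facts hp).1.ne']

theorem prof_le (hγ : 0 < γ) (hp : 3 / 2 < p) (hz : 0 < z) (hm : 0 < m) {r : ℝ} (hr : 0 ≤ r) :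
    prof γ p z m r ≤ (z / γ) ^ (1 / (p - 1)) * r ^ (-(1 / (p - 1))) := by
  have hq := (q_facts hp).1
  rcases hr.eq_or_lt with h | h
  · rw [← h, prof_at_zero hp hm]
    have : (0 : ℝ) ^ (-(1 / (p - 1))) = 0 := Real.zero_rpow (by linarith)
    rw [this, mul_zero]
  · have h1 : max (z / r - m) 0 / γ ≤ z / γ * r⁻¹ := by
      rw [div_le_iff₀ hγ]
      have e : z / γ * r⁻¹ * γ = z / r := by field_simp
      rw [e]
      exact max_le (by linarith) (by positivity)
    rw [Real.rpow_neg hr, ← Real.inv_rpow hr, ← Real.mul_rpow (by positivity) (by positivity)]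
    exact Real.rpow_le_rpow (div_nonneg (le_max_right _ _) hγ.le) h1 hq.le

theorem prof_meas : Measurable (prof γ p z m) := by
  unfold prof
  exact ((((measurable_const.div measurable_id).sub_const m).max measurable_const).div_const γ).pow_const _

end prof

theorem t_L1 : S_L1 := by
  intro γ p z m hγ hp hz hm
  obtain ⟨q0, q2, q3, qp⟩ := q_facts hp
  have hz0 : 0 < z / γ := by positivity
  have hp0 : 0 < p := by linarith
  have hmeas : Measurable (rho0 γ p z m) := prof_meas.comp measurable_norm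
  have hnn : ∀ x, 0 ≤ rho0 γ p z m x := fun x => prof_nonneg hγ _
  have hle : ∀ x, rho0 γ p z m x ≤ (z / γ) ^ (1 / (p - 1)) * ‖x‖ ^ (-(1 / (p - 1))) := fun x =>
    prof_le hγ hp hz hm (norm_nonneg x)
  have hze : ∀ x : E3, z / m ≤ ‖x‖ → rho0 γ p z m x = 0 := fun x hx => prof_zero hp hz hm hx
  refine ⟨hnn, hmeas, ?_, ?_, ?_⟩
  · refine int_of_bd hmeas (C := (z / γ) ^ (1 / (p - 1))) (s := 1 / (p - 1)) (R := z / m) (by linarith) ?_ hze
    intro x
    rw [abs_of_nonneg (hnn x)]
    exact hle x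
  · refine int_of_bd (hmeas.pow_const p) (C := ((z / γ) ^ (1 / (p - 1))) ^ p) (s := 1 / (p - 1) + 1) (R := z / m) q3 ?_ ?_
    · intro x
      rw [abs_of_nonneg (Real.rpow_nonneg (hnn x) _)]
      refine (Real.rpow_le_rpow (hnn x) (hle x) hp0.le).trans (le_of_eq ?_)
      rw [Real.mul_rpow (by positivity) (by positivity), ← Real.rpow_mul (norm_nonneg x), neg_mul, qp]
    · intro x hx
      rw [hze x hx, Real.zero_rpow hp0.ne']
  · refine int_of_bd ((measurable_const.div measurable_norm).mul hmeas) (C := z * (z / γ) ^ (1 / (p - 1)))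
      (s := 1 / (p - 1) + 1) (R := z / m) q3 ?_ ?_
    · intro x
      have h1 : 0 ≤ z / ‖x‖ * rho0 γ p z m x := mul_nonneg (by positivity) (hnn x)
      rw [abs_of_nonneg h1]
      rcases (norm_nonneg x).eq_or_lt with h | h
      · rw [← h, div_zero, zero_mul]
        positivity
      · calc z / ‖x‖ * rho0 γ p z m x ≤ z / ‖x‖ * ((z / γ) ^ (1 / (p - 1)) * ‖x‖ ^ (-(1 / (p - 1)))) :=
              mul_le_mul_of_nonneg_left (hle x) (by positivity)
          _ = z * (z / γ) ^ (1 / (p - 1)) * ‖x‖ ^ (-(1 / (p - 1) + 1)) := by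
              rw [neg_add, Real.rpow_add h, Real.rpow_neg_one]
              ring
    · intro x hx
      rw [hze x hx, mul_zero]

theorem t_L5 : S_L5 := by
  intro p z ρ hp hz hnn hρ hρp
  have hp1 : 1 < p := by linarith
  have hc : p.HolderConjugate (p / (p - 1)) := Real.HolderConjugate.conjExponent hp1
  set p' := p / (p - 1) with hp'
  have hp'0 : 0 < p' := hc.symm.pos
  have hp'3 : p' < 3 := by
    rw [hp', div_lt_iff₀ (by linarith)]
    linarith
  have hb : Integrable ((ball (0 : E3) 1).indicator fun x => ‖x‖ ^ (-p')) := by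
    rw [integrable_indicator_iff measurableSet_ball]
    exact pow_ball hp'3 1
  have hdom : Integrable (fun x => z * (ρ x + (ρ x ^ p / p + (ball (0 : E3) 1).indicator (fun x => ‖x‖ ^ (-p')) x / p'))) :=
    (hρ.add ((hρp.div_const p).add (hb.div_const p'))).const_mul z
  refine hdom.mono' ((measurable_const.div measurable_norm).aestronglyMeasurable.mul hρ.aestronglyMeasurable) ?_
  refine Eventually.of_forall fun x => ?_
  have hx0 : 0 ≤ ρ x := hnn x
  have hxp : 0 ≤ ρ x ^ p := Real.rpow_nonneg hx0 _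
  have hi : 0 ≤ (ball (0 : E3) 1).indicator (fun x => ‖x‖ ^ (-p')) x :=
    indicator_nonneg (fun y _ => Real.rpow_nonneg (norm_nonneg y) _) x
  have hpp : 0 ≤ ρ x ^ p / p := div_nonneg hxp (by linarith)
  rw [Real.norm_eq_abs, abs_of_nonneg (mul_nonneg (by positivity) hx0)]
  have e : z / ‖x‖ * ρ x = z * (ρ x * ‖x‖⁻¹) := by rw [div_eq_mul_inv]; ring
  rw [e]
  refine mul_le_mul_of_nonneg_left ?_ hz.le
  by_cases hx : ‖x‖ < 1
  · rw [indicator_of_mem (by rwa [mem_ball_zero_iff])]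
    have hy := Real.young_inequality_of_nonneg hx0 (inv_nonneg.2 (norm_nonneg x)) hc
    rw [Real.inv_rpow (norm_nonneg x), ← Real.rpow_neg (norm_nonneg x)] at hy
    linarith
  · have h1 : ‖x‖⁻¹ ≤ 1 := inv_le_one_of_one_le₀ (not_lt.1 hx)
    have h2 : ρ x * ‖x‖⁻¹ ≤ ρ x * 1 := mul_le_mul_of_nonneg_left h1 hx0
    have h3 : 0 ≤ (ball (0 : E3) 1).indicator (fun x => ‖x‖ ^ (-p')) x / p' := div_nonneg hi hp'0.le
    linarith

end Pool.Agent.Q182.VW
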