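import Pool.Agent.Q182.VW.L1

/-! Project VW (helper62), jobs L2 (mass) and L8 (the profile is not convex). -/

set_option autoImplicit false

open MeasureTheory Filter Topology Set Metric
open scoped ContDiff ENNReal

namespace Pool.Agent.Q182.VW

open Pool.Agent.Q62.VW

theorem prof_scale {γ p z m : ℝ} (hγ : 0 < γ) (hz : 0 < z) (hm : 0 < m) (r : ℝ) (hr : 0 ≤ r) (hp : 3 / 2 < p) :
    prof γ p z m r = (m / γ) ^ (1 / (p - 1)) * prof 1 p 1 1 (m / z * r) := by
  rcases hr.eq_or_lt with h | h
  · rw [← h, mul_zero, prof_at_zero hp hm, prof_at_zero hp one_pos, mul_zero]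
  · unfold prof
    rw [← Real.mul_rpow (by positivity) (by positivity)]
    congr 1
    have e1 : z / r - m = m * (1 / (m / z * r) - 1) := by
      field_simp
    rw [e1, div_one]
    rcases le_total 0 (1 / (m / z * r) - 1) with h1 | h1
    · rw [max_eq_left h1, max_eq_left (mul_nonneg hm.le h1)]
      ring
    · rw [max_eq_right h1, max_eq_right (mul_nonpos_of_nonneg_of_nonpos hm.le h1)]
      ring

theorem mass_pos {p : ℝ} (hp : 3 / 2 < p) : 0 < ∫ x, rho0 1 p 1 1 x := by
  obtain ⟨h1, -, h3, -⟩ := t_L1 1 p 1 1 one_pos hp one_pos one_pos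
  rw [integral_pos_iff_support_of_nonneg h1 h3]
  have h4 : (ball (0 : E3) 1) \ {0} ⊆ Function.support (rho0 1 p 1 1) := by
    intro x hx
    rw [Function.mem_support]
    have hx1 : ‖x‖ < 1 := mem_ball_zero_iff.1 hx.1
    have hx0 : 0 < ‖x‖ := norm_pos_iff.2 (by simpa using hx.2)
    have h5 : 0 < 1 / ‖x‖ - 1 := by
      rw [sub_pos, lt_div_iff₀ hx0]
      linarith
    unfold rho0 prof
    have h6 : 0 < max (1 / ‖x‖ - 1) 0 / 1 := by
      rw [max_eq_left h5.le]
      linarith
    exact (Real.rpow_pos_of_pos h6 _).ne'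
  refine lt_of_lt_of_le ?_ (measure_mono h4)
  rw [measure_sdiff_null (measure_singleton 0)]
  exact measure_ball_pos _ _ one_pos

theorem t_L2 : S_L2 := by
  intro γ p z lam hγ hp hz hlam
  obtain ⟨q0, q2, -, -⟩ := q_facts hp
  set q := 1 / (p - 1) with hq
  set C := ∫ x, rho0 1 p 1 1 x with hC
  have hC0 : 0 < C := mass_pos hp
  have key : ∀ m : ℝ, 0 < m → ∫ x, rho0 γ p z m x = (C * z ^ 3 / γ ^ q) * m ^ (q - 3) := by
    intro m hm
    have e1 : (fun x : E3 => rho0 γ p z m x) = fun x => (m / γ) ^ q * rho0 1 p 1 1 ((m / z) • x) := by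
      funext x
      unfold rho0
      rw [prof_scale hγ hz hm _ (norm_nonneg x) hp, norm_smul, Real.norm_eq_abs, abs_of_pos (by positivity : 0 < m / z)]
    rw [e1, integral_const_mul, Measure.integral_comp_smul]
    have h3 : Module.finrank ℝ E3 = 3 := by simp
    rw [h3, ← hC, smul_eq_mul, abs_of_pos (by positivity : 0 < ((m / z) ^ 3)⁻¹), Real.div_rpow hm.le hγ.le,
      Real.rpow_sub hm, div_pow]
    have e2 : m ^ (3 : ℝ) = m ^ 3 := by exact_mod_cast Real.rpow_natCast m 3
    rw [e2]
    have h4 : γ ^ q ≠ 0 := (Real.rpow_pos_of_pos hγ q).ne'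
    field_simp
  set K := C * z ^ 3 / γ ^ q with hK
  have hK0 : 0 < K := by
    have := Real.rpow_pos_of_pos hγ q
    positivity
  refine ⟨(lam / K) ^ (1 / (q - 3)), Real.rpow_pos_of_pos (by positivity) _, ?_⟩
  rw [key _ (Real.rpow_pos_of_pos (by positivity) _), ← Real.rpow_mul (by positivity)]
  have h5 : 1 / (q - 3) * (q - 3) = 1 := by
    have : q - 3 ≠ 0 := by linarith
    field_simp
  rw [h5, Real.rpow_one]
  field_simp

theorem t_L8 : S_L8 := by
  intro γ p z m hγ hp hz hm
  obtain ⟨q0, q2, -, -⟩ := q_facts hp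
  set q := 1 / (p - 1) with hq
  constructor
  · refine ContinuousOn.sqrt ?_
    unfold prof
    refine ContinuousOn.rpow_const ?_ (fun x _ => Or.inr q0.le)
    refine ContinuousOn.div_const ?_ γ
    refine ContinuousOn.sup ?_ continuousOn_const
    exact (continuousOn_const.div continuousOn_id (fun x hx => (ne_of_gt hx))).sub continuousOn_const
  · set R := z / m with hR
    have hR0 : 0 < R := by positivity
    have hcont : ContinuousAt (fun s : ℝ => (2 * (R - s) / (R - 2 * s)) ^ (q / 2)) 0 := by
      refine ContinuousAt.rpow_const ?_ (Or.inr (by positivity))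
      refine ContinuousAt.div (by fun_prop) (by fun_prop) (by simpa using hR0.ne')
    have hlim : (2 * (R - 0) / (R - 2 * 0)) ^ (q / 2) < 2 := by
      have e : 2 * (R - 0) / (R - 2 * 0) = 2 := by
        rw [mul_zero, sub_zero]
        field_simp
      rw [e]
      calc (2 : ℝ) ^ (q / 2) < 2 ^ (1 : ℝ) := Real.rpow_lt_rpow_of_exponent_lt (by norm_num) (by linarith)
        _ = 2 := Real.rpow_one 2
    have hev := hcont.eventually_lt_const hlim
    obtain ⟨ε, hε, hball⟩ := Metric.eventually_nhds_iff.1 hev
    set s := min (ε / 2) (R / 4) with hs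
    have hs0 : 0 < s := lt_min (by positivity) (by positivity)
    have hs1 : s ≤ R / 4 := min_le_right _ _
    have hs2 : s < ε := lt_of_le_of_lt (min_le_left _ _) (by linarith)
    have hlt := @hball s (by rw [Real.dist_eq, sub_zero, abs_of_pos hs0]; exact hs2)
    refine ⟨R - 2 * s, s, by linarith, hs0, ?_⟩
    have e1 : R - 2 * s + 2 * s = R := by ring
    have e2 : R - 2 * s + s = R - s := by ring
    rw [e1, e2, prof_zero hp hz hm le_rfl, Real.sqrt_zero, add_zero]
    have hz' : z = m * R := by rw [hR]; field_simp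
    have h1 : √(prof γ p z m (R - s)) = (m * s / ((R - s) * γ)) ^ (q / 2) := by
      unfold prof
      have h2 : z / (R - s) - m = m * s / (R - s) := by
        rw [hz']
        have : R - s ≠ 0 := by linarith
        field_simp
        ring
      have h3 : 0 < R - s := by linarith
      rw [h2, max_eq_left (by positivity), Real.sqrt_eq_rpow, ← Real.rpow_mul (by positivity), div_div]
      congr 1
      rw [← hq]; ring
    have h2 : √(prof γ p z m (R - 2 * s)) = (m * (2 * s) / ((R - 2 * s) * γ)) ^ (q / 2) := by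
      unfold prof
      have h2 : z / (R - 2 * s) - m = m * (2 * s) / (R - 2 * s) := by
        rw [hz']
        have : R - 2 * s ≠ 0 := by linarith
        field_simp
        ring
      have h3 : 0 < R - 2 * s := by linarith
      rw [h2, max_eq_left (by positivity), Real.sqrt_eq_rpow, ← Real.rpow_mul (by positivity), div_div]
      congr 1
      rw [← hq]; ring
    have h3 : 0 < R - s := by linarith
    have h4 : 0 < R - 2 * s := by linarith
    rw [h1, h2]
    have e3 : m * (2 * s) / ((R - 2 * s) * γ) = (2 * (R - s) / (R - 2 * s)) * (m * s / ((R - s) * γ)) := by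
      field_simp
    rw [e3, Real.mul_rpow (by positivity) (by positivity)]
    have h5 : 0 < (m * s / ((R - s) * γ)) ^ (q / 2) := Real.rpow_pos_of_pos (by positivity) _
    nlinarith

end Pool.Agent.Q182.VW
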