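import Pool.Agent.Q182.VW.L1

/-! Project VW (helper62), jobs L3 (Bregman distance) and L4 (lower bound). -/

set_option autoImplicit false

open MeasureTheory Filter Topology Set Metric
open scoped ContDiff ENNReal

namespace Pool.Agent.Q182.VW

open Pool.Agent.Q62.VW

theorem rpow_sub_mul {p b : ℝ} (hp : 1 < p) (hb : 0 ≤ b) : b ^ (p - 1) * b = b ^ p := by
  rcases hb.eq_or_lt with h | h
  · rw [← h, mul_zero, Real.zero_rpow (by linarith)]
  · rw [Real.rpow_sub_one h.ne']
    field_simp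

theorem breg_nonneg {p : ℝ} (hp : 1 < p) {a b : ℝ} (ha : 0 ≤ a) (hb : 0 ≤ b) : 0 ≤ breg p a b := by
  have hc : p.HolderConjugate (p / (p - 1)) := Real.HolderConjugate.conjExponent hp
  have hy := Real.young_inequality_of_nonneg ha (Real.rpow_nonneg hb (p - 1)) hc
  have h0 : p - 1 ≠ 0 := by linarith
  have h1 : (b ^ (p - 1)) ^ (p / (p - 1)) = b ^ p := by
    rw [← Real.rpow_mul hb]
    congr 1
    field_simp
  rw [h1] at hy
  have h2 : b ^ p / (p / (p - 1)) = b ^ p - b ^ p / p := by
    have : p ≠ 0 := by linarith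
    field_simp
  rw [h2] at hy
  unfold breg
  have h3 := rpow_sub_mul hp hb
  have e : b ^ (p - 1) * (a - b) = a * b ^ (p - 1) - b ^ (p - 1) * b := by ring
  rw [e, h3]
  linarith

theorem breg_self (p b : ℝ) : breg p b b = 0 := by unfold breg; ring

theorem breg_conv {p : ℝ} (hp : 1 < p) {x y b t : ℝ} (hx : 0 ≤ x) (hy : 0 ≤ y) (hxy : x ≠ y) (ht0 : 0 < t) (ht1 : t < 1) :
    breg p (t * x + (1 - t) * y) b < t * breg p x b + (1 - t) * breg p y b := by
  have h := (strictConvexOn_rpow hp).2 (show x ∈ Ici 0 from hx) (show y ∈ Ici 0 from hy) hxy ht0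
    (show 0 < 1 - t by linarith) (by ring)
  simp only [smul_eq_mul] at h
  have hp0 : 0 < p := by linarith
  have h2 : (t * x + (1 - t) * y) ^ p / p < (t * x ^ p + (1 - t) * y ^ p) / p := div_lt_div_of_pos_right h hp0
  unfold breg
  have e : t * (x ^ p / p - b ^ p / p - b ^ (p - 1) * (x - b)) + (1 - t) * (y ^ p / p - b ^ p / p - b ^ (p - 1) * (y - b)) =
      (t * x ^ p + (1 - t) * y ^ p) / p - b ^ p / p - b ^ (p - 1) * (t * x + (1 - t) * y - b) := by
    ring
  rw [e]
  linarith

theorem breg_pos {p : ℝ} (hp : 1 < p) {a b : ℝ} (ha : 0 ≤ a) (hb : 0 ≤ b) (hab : a ≠ b) : 0 < breg p a b := by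
  rcases (breg_nonneg hp ha hb).eq_or_lt with h | h
  · exfalso
    have h1 := breg_conv hp ha hb (b := b) hab (show (0 : ℝ) < 1 / 2 by norm_num) (by norm_num)
    rw [← h, breg_self, mul_zero, mul_zero, add_zero] at h1
    have h2 := breg_nonneg hp (show 0 ≤ 1 / 2 * a + (1 - 1 / 2) * b by positivity) hb
    linarith
  · exact h

theorem breg_gap {p : ℝ} (hp : 1 < p) {b ε : ℝ} (hb : 0 ≤ b) (hε : 0 < ε) : ∃ δ : ℝ, 0 < δ ∧ ∀ a : ℝ, 0 ≤ a →
    ε ≤ |a - b| → δ ≤ breg p a b := by
  set δ₁ := breg p (b + ε) b with hδ₁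
  have h1 : 0 < δ₁ := breg_pos hp (by positivity) hb (by linarith)
  set δ₂ := if ε ≤ b then breg p (b - ε) b else 1 with hδ₂
  have h2 : 0 < δ₂ := by
    rw [hδ₂]
    split_ifs with h
    · exact breg_pos hp (by linarith) hb (by linarith)
    · exact one_pos
  refine ⟨min δ₁ δ₂, lt_min h1 h2, fun a ha hab => ?_⟩
  rcases le_total b a with h | h
  · rw [abs_of_nonneg (by linarith)] at hab
    refine (min_le_left _ _).trans ?_
    rcases hab.eq_or_lt with h3 | h3
    · rw [hδ₁, h3]
      apply le_of_eq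
      congr 1
      ring
    · have hab0 : 0 < a - b := by linarith
      have ht1 : ε / (a - b) < 1 := by rw [div_lt_one hab0]; exact h3
      have h4 := breg_conv hp ha hb (b := b) (by linarith : a ≠ b) (show 0 < ε / (a - b) by positivity) ht1
      rw [breg_self, mul_zero, add_zero] at h4
      have e : ε / (a - b) * a + (1 - ε / (a - b)) * b = b + ε := by
        field_simp
        ring
      rw [e] at h4
      have h5 := breg_nonneg hp ha hb
      have h6 : ε / (a - b) * breg p a b ≤ 1 * breg p a b := mul_le_mul_of_nonneg_right ht1.le h5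
      linarith
  · rw [abs_of_nonpos (by linarith)] at hab
    refine (min_le_right _ _).trans ?_
    have hεb : ε ≤ b := by linarith
    rw [hδ₂, if_pos hεb]
    rcases hab.eq_or_lt with h3 | h3
    · apply le_of_eq
      congr 1
      linarith
    · have hab0 : 0 < b - a := by linarith
      have ht1 : ε / (b - a) < 1 := by rw [div_lt_one hab0]; linarith
      have h4 := breg_conv hp ha hb (b := b) (by linarith : a ≠ b) (show 0 < ε / (b - a) by positivity) ht1
      rw [breg_self, mul_zero, add_zero] at h4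
      have e : ε / (b - a) * a + (1 - ε / (b - a)) * b = b - ε := by
        field_simp
        ring
      rw [e] at h4
      have h5 := breg_nonneg hp ha hb
      have h6 : ε / (b - a) * breg p a b ≤ 1 * breg p a b := mul_le_mul_of_nonneg_right ht1.le h5
      linarith

theorem t_L3 : S_L3 := by
  intro p hp
  refine ⟨fun a b ha hb => breg_nonneg hp ha hb, fun a b ha hb h => ?_⟩
  rw [Metric.tendsto_atTop]
  intro ε hε
  obtain ⟨δ, hδ, hgap⟩ := breg_gap hp hb hε
  obtain ⟨N, hN⟩ := Metric.tendsto_atTop.1 h δ hδ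
  refine ⟨N, fun n hn => ?_⟩
  by_contra hcon
  rw [Real.dist_eq, not_lt] at hcon
  have h1 := hgap (a n) (ha n) hcon
  have h2 := hN n hn
  rw [Real.dist_eq, sub_zero, abs_of_nonneg (breg_nonneg hp (ha n) hb)] at h2
  linarith

theorem prof_pow {γ p z m : ℝ} (hγ : 0 < γ) (hp : 3 / 2 < p) (r : ℝ) : γ * prof γ p z m r ^ (p - 1) = max (z / r - m) 0 := by
  unfold prof
  have h0 : 0 ≤ max (z / r - m) 0 / γ := div_nonneg (le_max_right _ _) hγ.le
  rw [← Real.rpow_mul h0]
  have h1 : 1 / (p - 1) * (p - 1) = 1 := by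
    have : p - 1 ≠ 0 := by linarith
    field_simp
  rw [h1, Real.rpow_one]
  field_simp

/-- the pointwise inequality -/
theorem pt_ineq {γ p z m : ℝ} (hγ : 0 < γ) (hp : 3 / 2 < p) {a : ℝ} (ha : 0 ≤ a) (x : E3) :
    γ * breg p a (rho0 γ p z m x) - m * (a - rho0 γ p z m x) ≤
      γ / p * a ^ p - γ / p * rho0 γ p z m x ^ p - (z / ‖x‖ * a - z / ‖x‖ * rho0 γ p z m x) := by
  set b := rho0 γ p z m x with hb
  have h1 : γ * b ^ (p - 1) = max (z / ‖x‖ - m) 0 := prof_pow hγ hp ‖x‖
  have h2 : 0 ≤ (γ * b ^ (p - 1) - z / ‖x‖ + m) * (a - b) := by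
    rw [h1]
    rcases le_total 0 (z / ‖x‖ - m) with h | h
    · rw [max_eq_left h]
      have : (z / ‖x‖ - m - z / ‖x‖ + m) * (a - b) = 0 := by ring
      rw [this]
    · rw [max_eq_right h]
      have hb0 : b = 0 := by
        rw [hb]
        unfold rho0 prof
        rw [max_eq_right h, zero_div, Real.zero_rpow (q_facts hp).1.ne']
      rw [hb0, sub_zero]
      exact mul_nonneg (by linarith) ha
  unfold breg
  have e : γ / p * a ^ p - γ / p * b ^ p - (z / ‖x‖ * a - z / ‖x‖ * b) -
      (γ * (a ^ p / p - b ^ p / p - b ^ (p - 1) * (a - b)) - m * (a - b)) =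
      (γ * b ^ (p - 1) - z / ‖x‖ + m) * (a - b) := by ring
  linarith

theorem t_L4 : S_L4 := by
  intro γ p z m ρ hγ hp hz hm hnn hρ hρp hle
  have hp1 : 1 < p := by linarith
  obtain ⟨h0, hmeas, hI, hIp, hIz⟩ := t_L1 γ p z m hγ hp hz hm
  have hV := t_L5 p z ρ hp hz hnn hρ hρp
  have iA : Integrable (fun x => γ / p * ρ x ^ p - γ / p * rho0 γ p z m x ^ p) := (hρp.const_mul _).sub (hIp.const_mul _)
  have iB : Integrable (fun x => z / ‖x‖ * ρ x - z / ‖x‖ * rho0 γ p z m x) := hV.sub hIz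
  have iD : Integrable (fun x => γ / p * ρ x ^ p - γ / p * rho0 γ p z m x ^ p - (z / ‖x‖ * ρ x - z / ‖x‖ * rho0 γ p z m x)) :=
    iA.sub iB
  have iM : Integrable (fun x => m * (ρ x - rho0 γ p z m x)) := (hρ.sub hI).const_mul m
  have hpt := fun x => pt_ineq (z := z) (m := m) hγ hp (hnn x) x
  have hbr : Integrable (fun x => breg p (ρ x) (rho0 γ p z m x)) := by
    refine ((iD.add iM).const_mul γ⁻¹).mono' ?_ ?_
    · unfold breg
      refine AEStronglyMeasurable.sub (AEStronglyMeasurable.sub ?_ ?_) (AEStronglyMeasurable.mul ?_ ?_)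
      · exact (hρp.div_const p).aestronglyMeasurable
      · exact (hIp.div_const p).aestronglyMeasurable
      · exact (hmeas.pow_const _).aestronglyMeasurable
      · exact (hρ.sub hI).aestronglyMeasurable
    · refine Eventually.of_forall fun x => ?_
      rw [Real.norm_eq_abs, abs_of_nonneg (breg_nonneg hp1 (hnn x) (h0 x))]
      have h3 := hpt x
      have e : breg p (ρ x) (rho0 γ p z m x) = γ⁻¹ * (γ * breg p (ρ x) (rho0 γ p z m x)) := by field_simp
      rw [e]
      refine mul_le_mul_of_nonneg_left ?_ (by positivity)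
      simp only [Pi.add_apply]
      linarith
  refine ⟨hbr, ?_⟩
  have h4 : ∫ x, (γ * breg p (ρ x) (rho0 γ p z m x) - m * (ρ x - rho0 γ p z m x)) ≤
      ∫ x, (γ / p * ρ x ^ p - γ / p * rho0 γ p z m x ^ p - (z / ‖x‖ * ρ x - z / ‖x‖ * rho0 γ p z m x)) :=
    integral_mono ((hbr.const_mul γ).sub iM) iD hpt
  rw [integral_sub (hbr.const_mul γ) iM, integral_sub iA iB, integral_sub (hρp.const_mul _) (hIp.const_mul _),
    integral_sub hV hIz, integral_const_mul, integral_const_mul, integral_const_mul, integral_const_mul,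
    integral_sub hρ hI] at h4
  unfold F
  have h5 : m * ((∫ x, ρ x) - ∫ x, rho0 γ p z m x) ≤ 0 := mul_nonpos_of_nonneg_of_nonpos hm.le (by linarith)
  linarith

end Pool.Agent.Q182.VW
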