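import Pool.Agent.Q182.VW.L1

/-! Project VW (helper62), job L6 (trial functions). -/

set_option autoImplicit false

open MeasureTheory Filter Topology Set Metric
open scoped ContDiff ENNReal

namespace Pool.Agent.Q182.VW

open Pool.Agent.Q62.VW

/-- the outer cut-off -/
noncomputable def bo (R ε : ℝ) (hε : 0 < ε) (hR : 4 * ε < R) : ContDiffBump (0 : E3) :=
  ⟨R - 2 * ε, R - ε, by linarith, by linarith⟩

/-- the inner cut-off -/
noncomputable def bi (ε : ℝ) (hε : 0 < ε) : ContDiffBump (0 : E3) := ⟨ε, 2 * ε, hε, by linarith⟩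

section
variable {γ p z m ε : ℝ}

/-- the trial functions -/
noncomputable def tw (γ p z m ε : ℝ) (hε : 0 < ε) (hR : 4 * ε < z / m) (x : E3) : ℝ :=
  (bo (z / m) ε hε hR x * (1 - bi ε hε x)) * √(rho0 γ p z m x)

theorem sm_h (hγ : 0 < γ) (hp : 3 / 2 < p) (hz : 0 < z) (hm : 0 < m) {x : E3} (hx0 : 0 < ‖x‖) (hx1 : ‖x‖ < z / m) :
    ContDiffAt ℝ ∞ (fun x => √(rho0 γ p z m x)) x := by
  have hpos : 0 < z / ‖x‖ - m := by
    rw [lt_div_iff₀ hm] at hx1
    rw [sub_pos, lt_div_iff₀ hx0]
    linarith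
  have hne : x ≠ 0 := norm_pos_iff.1 hx0
  have h1 : ContDiffAt ℝ ∞ (fun y : E3 => (z / ‖y‖ - m) / γ) x :=
    ((contDiffAt_const.div (contDiffAt_norm ℝ hne) hx0.ne').sub contDiffAt_const).div_const γ
  have h2 : ContDiffAt ℝ ∞ (fun y : E3 => √(((z / ‖y‖ - m) / γ) ^ (1 / (p - 1)))) x := by
    refine ContDiffAt.sqrt (h1.rpow_const_of_ne (by positivity)) ?_
    exact (Real.rpow_pos_of_pos (by positivity) _).ne'
  refine h2.congr_of_eventuallyEq ?_
  have h3 : ∀ᶠ y : E3 in 𝓝 x, 0 < z / ‖y‖ - m := by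
    have hc : ContinuousAt (fun y : E3 => z / ‖y‖ - m) x :=
      (continuousAt_const.div continuous_norm.continuousAt hx0.ne').sub continuousAt_const
    exact hc.eventually_const_lt hpos
  filter_upwards [h3] with y hy
  show √(rho0 γ p z m y) = _
  unfold rho0 prof
  rw [max_eq_left hy.le]

theorem tw_test (hγ : 0 < γ) (hp : 3 / 2 < p) (hz : 0 < z) (hm : 0 < m) (hε : 0 < ε) (hR : 4 * ε < z / m) :
    Test (tw γ p z m ε hε hR) := by
  constructor
  · rw [contDiff_iff_contDiffAt]
    intro x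
    rcases lt_or_ge ‖x‖ ε with h | h
    · have h1 : ∀ᶠ y : E3 in 𝓝 x, ‖y‖ < ε := continuous_norm.continuousAt.eventually_lt_const h
      refine (contDiffAt_const (c := (0 : ℝ))).congr_of_eventuallyEq ?_
      filter_upwards [h1] with y hy
      have h2 : bi ε hε y = 1 := (bi ε hε).one_of_mem_closedBall (by
        rw [mem_closedBall_zero_iff]; exact hy.le)
      show (bo (z / m) ε hε hR y * (1 - bi ε hε y)) * √(rho0 γ p z m y) = 0
      rw [h2]
      ring
    rcases lt_or_ge (z / m - ε) ‖x‖ with h' | h'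
    · have h1 : ∀ᶠ y : E3 in 𝓝 x, z / m - ε < ‖y‖ := continuous_norm.continuousAt.eventually_const_lt h'
      refine (contDiffAt_const (c := (0 : ℝ))).congr_of_eventuallyEq ?_
      filter_upwards [h1] with y hy
      have h2 : bo (z / m) ε hε hR y = 0 := (bo (z / m) ε hε hR).zero_of_le_dist (by
        rw [dist_zero_right]; exact hy.le)
      show (bo (z / m) ε hε hR y * (1 - bi ε hε y)) * √(rho0 γ p z m y) = 0
      rw [h2]
      ring
    · have h1 := sm_h hγ hp hz hm (lt_of_lt_of_le hε h) (by linarith : ‖x‖ < z / m)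
      exact (((bo (z / m) ε hε hR).contDiff.contDiffAt).mul
        (contDiffAt_const.sub (bi ε hε).contDiff.contDiffAt)).mul h1
  · refine HasCompactSupport.mul_right ?_
    exact HasCompactSupport.mul_right (bo (z / m) ε hε hR).hasCompactSupport

theorem cut_bd (hε : 0 < ε) (hR : 4 * ε < z / m) (x : E3) : 0 ≤ bo (z / m) ε hε hR x * (1 - bi ε hε x) ∧
    bo (z / m) ε hε hR x * (1 - bi ε hε x) ≤ 1 := by
  have h1 : 0 ≤ bo (z / m) ε hε hR x := (bo (z / m) ε hε hR).nonneg
  have h2 : bo (z / m) ε hε hR x ≤ 1 := (bo (z / m) ε hε hR).le_one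
  have h3 : 0 ≤ bi ε hε x := (bi ε hε).nonneg
  have h4 : bi ε hε x ≤ 1 := (bi ε hε).le_one
  constructor
  · exact mul_nonneg h1 (by linarith)
  · calc bo (z / m) ε hε hR x * (1 - bi ε hε x) ≤ 1 * 1 := mul_le_mul h2 (by linarith) (by linarith) zero_le_one
      _ = 1 := one_mul 1

theorem tw_sq (hγ : 0 < γ) (hε : 0 < ε) (hR : 4 * ε < z / m) (x : E3) : 0 ≤ tw γ p z m ε hε hR x ^ 2 ∧
    tw γ p z m ε hε hR x ^ 2 ≤ rho0 γ p z m x := by
  have h1 := cut_bd hε hR x
  have h0 : 0 ≤ rho0 γ p z m x := prof_nonneg hγ _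
  refine ⟨sq_nonneg _, ?_⟩
  unfold tw
  rw [mul_pow, Real.sq_sqrt h0]
  have h2 : (bo (z / m) ε hε hR x * (1 - bi ε hε x)) ^ 2 ≤ 1 := pow_le_one₀ h1.1 h1.2
  exact mul_le_of_le_one_left h0 h2

theorem tw_eq (hγ : 0 < γ) (hε : 0 < ε) (hR : 4 * ε < z / m) (x : E3) (h1 : 2 * ε ≤ ‖x‖) (h2 : ‖x‖ ≤ z / m - 2 * ε) :
    tw γ p z m ε hε hR x ^ 2 = rho0 γ p z m x := by
  have h0 : 0 ≤ rho0 γ p z m x := prof_nonneg hγ _
  have h3 : bo (z / m) ε hε hR x = 1 := (bo (z / m) ε hε hR).one_of_mem_closedBall (by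
    rw [mem_closedBall_zero_iff]; exact h2)
  have h4 : bi ε hε x = 0 := (bi ε hε).zero_of_le_dist (by rw [dist_zero_right]; exact h1)
  unfold tw
  rw [h3, h4, sub_zero, mul_one, one_mul, Real.sq_sqrt h0]

end

theorem t_L6 : S_L6 := by
  intro γ p z m hγ hp hz hm η hη
  obtain ⟨h0, hmeas, hI, hIp, hIz⟩ := t_L1 γ p z m hγ hp hz hm
  have hp0 : 0 < p := by linarith
  have hR : 0 < z / m := by positivity
  set e : ℕ → ℝ := fun k => z / m / (k + 5) with he
  have he0 : ∀ k, 0 < e k := fun k => by simp only [he]; positivity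
  have heR : ∀ k, 4 * e k < z / m := fun k => by
    have h1 : (0 : ℝ) ≤ k := Nat.cast_nonneg k
    have h2 : e k * (k + 5) = z / m := by
      simp only [he]
      field_simp
    nlinarith [he0 k]
  have hlim : Tendsto e atTop (𝓝 0) := by
    have h2 : Tendsto (fun k : ℕ => (k : ℝ) + 5) atTop atTop := tendsto_natCast_atTop_atTop.atTop_add tendsto_const_nhds
    exact h2.const_div_atTop (z / m)
  set W : ℕ → E3 → ℝ := fun k x => tw γ p z m (e k) (he0 k) (heR k) x ^ 2 with hW
  have hWc : ∀ k, Continuous (W k) := fun k => (tw_test hγ hp hz hm (he0 k) (heR k)).1.continuous.pow 2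
  have hWb : ∀ k x, 0 ≤ W k x ∧ W k x ≤ rho0 γ p z m x := fun k x => tw_sq hγ (he0 k) (heR k) x
  have hWlim : ∀ x, Tendsto (fun k => W k x) atTop (𝓝 (rho0 γ p z m x)) := by
    intro x
    rcases eq_or_ne (rho0 γ p z m x) 0 with h | h
    · have h1 : ∀ k, W k x = 0 := fun k => le_antisymm (h ▸ (hWb k x).2) (hWb k x).1
      rw [h]
      simp only [h1]
      exact tendsto_const_nhds
    · have hx0 : 0 < ‖x‖ := by
        rcases (norm_nonneg x).eq_or_lt with h1 | h1
        · exfalso
          apply h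
          unfold rho0
          rw [← h1]
          exact prof_at_zero hp hm
        · exact h1
      have hx1 : ‖x‖ < z / m := by
        by_contra h1
        exact h (prof_zero hp hz hm (not_lt.1 h1))
      have hev : ∀ᶠ k in atTop, e k < min (‖x‖ / 2) ((z / m - ‖x‖) / 2) :=
        hlim.eventually_lt_const (lt_min (by positivity) (by linarith))
      refine tendsto_const_nhds.congr' ?_
      filter_upwards [hev] with k hk
      have h2 := lt_of_lt_of_le hk (min_le_left _ _)
      have h3 := lt_of_lt_of_le hk (min_le_right _ _)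
      exact (tw_eq hγ (he0 k) (heR k) x (by linarith) (by linarith)).symm
  have hlim1 : Tendsto (fun k => ∫ x, W k x ^ p) atTop (𝓝 (∫ x, rho0 γ p z m x ^ p)) := by
    refine tendsto_integral_of_dominated_convergence (fun x => rho0 γ p z m x ^ p) ?_ hIp ?_ ?_
    · exact fun k => ((hWc k).rpow_const (fun x => Or.inr hp0.le)).aestronglyMeasurable
    · intro k
      refine Eventually.of_forall fun x => ?_
      rw [Real.norm_eq_abs, abs_of_nonneg (Real.rpow_nonneg (hWb k x).1 _)]
      exact Real.rpow_le_rpow (hWb k x).1 (hWb k x).2 hp0.le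
    · exact Eventually.of_forall fun x => (hWlim x).rpow_const (Or.inr hp0.le)
  have hlim2 : Tendsto (fun k => ∫ x, z / ‖x‖ * W k x) atTop (𝓝 (∫ x, z / ‖x‖ * rho0 γ p z m x)) := by
    refine tendsto_integral_of_dominated_convergence (fun x => z / ‖x‖ * rho0 γ p z m x) ?_ hIz ?_ ?_
    · exact fun k => (measurable_const.div measurable_norm).aestronglyMeasurable.mul (hWc k).aestronglyMeasurable
    · intro k
      refine Eventually.of_forall fun x => ?_
      rw [Real.norm_eq_abs, abs_of_nonneg (mul_nonneg (by positivity) (hWb k x).1)]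
      exact mul_le_mul_of_nonneg_left (hWb k x).2 (by positivity)
    · exact Eventually.of_forall fun x => (hWlim x).const_mul _
  have hF : Tendsto (fun k => F γ p z (W k)) atTop (𝓝 (F γ p z (rho0 γ p z m))) :=
    (hlim1.const_mul (γ / p)).sub hlim2
  have hev := hF.eventually_lt_const (show F γ p z (rho0 γ p z m) < F γ p z (rho0 γ p z m) + η by linarith)
  obtain ⟨k, hk⟩ := hev.exists
  have htest := tw_test (γ := γ) (p := p) hγ hp hz hm (he0 k) (heR k)
  refine ⟨tw γ p z m (e k) (he0 k) (heR k), htest, ?_, ?_, hk.le⟩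
  · intro x
    exact mul_nonneg (cut_bd (he0 k) (heR k) x).1 (Real.sqrt_nonneg _)
  · refine integral_mono ?_ hI (fun x => (hWb k x).2)
    have hcs : HasCompactSupport (fun x => tw γ p z m (e k) (he0 k) (heR k) x ^ 2) := by
      have := htest.2.comp_left (g := fun y : ℝ => y ^ 2) (by norm_num)
      exact this
    exact (hWc k).integrable_of_hasCompactSupport hcs

end Pool.Agent.Q182.VW
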