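import Pool.Agent.Q182.VW.L1

/-! Project VW (helper62), job L7 (test functions are admissible). -/

set_option autoImplicit false

open MeasureTheory Filter Topology Set Metric
open scoped ContDiff ENNReal

namespace Pool.Agent.Q182.VW

open Pool.Agent.Q62.VW

theorem grad_apply (w : E3 → ℝ) (x : E3) (i : Fin 3) : gradient w x i = fderiv ℝ w x (EuclideanSpace.single i 1) := by
  have h1 : inner ℝ (gradient w x) (EuclideanSpace.single i (1 : ℝ)) = fderiv ℝ w x (EuclideanSpace.single i 1) := by
    unfold gradient
    exact InnerProductSpace.toDual_symm_apply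
  rw [← h1, EuclideanSpace.inner_single_right]
  simp

theorem coul_int {f : E3 → ℝ} (hf : Continuous f) (hc : HasCompactSupport f) :
    Integrable (fun q : E3 × E3 => f q.1 * f q.2 / ‖q.1 - q.2‖) := by
  obtain ⟨R, hR⟩ := hc.isCompact.isBounded.subset_ball 0
  obtain ⟨M, hM⟩ := hf.bounded_above_of_compact_support hc
  have hfi : Integrable f := hf.integrable_of_hasCompactSupport hc
  set g : E3 → ℝ := (ball (0 : E3) (2 * R)).indicator (fun x => ‖x‖ ^ (-(1 : ℝ))) with hg
  have hgi : Integrable g := by
    rw [hg, integrable_indicator_iff measurableSet_ball]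
    exact pow_ball (by norm_num) _
  have h1 := MeasureTheory.Integrable.convolution_integrand (μ := (volume : Measure E3)) (ν := (volume : Measure E3))
    (ContinuousLinearMap.mul ℝ ℝ) hfi hgi
  have h2 : Integrable (fun q : E3 × E3 => f q.1 * (f q.2 * g (q.1 - q.2))) := by
    refine Integrable.bdd_mul (c := M) h1 (hf.comp continuous_fst).aestronglyMeasurable ?_
    exact Eventually.of_forall fun q => hM q.1
  refine h2.congr (Eventually.of_forall fun q => ?_)
  show f q.1 * (f q.2 * g (q.1 - q.2)) = f q.1 * f q.2 / ‖q.1 - q.2‖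
  by_cases h3 : f q.1 = 0
  · rw [h3, zero_mul, zero_mul, zero_div]
  by_cases h4 : f q.2 = 0
  · rw [h4, zero_mul, mul_zero, zero_div]
  have h5 : ‖q.1‖ < R := mem_ball_zero_iff.1 (hR (subset_tsupport _ h3))
  have h6 : ‖q.2‖ < R := mem_ball_zero_iff.1 (hR (subset_tsupport _ h4))
  have h7 : ‖q.1 - q.2‖ < 2 * R := (norm_sub_le _ _).trans_lt (by linarith)
  rw [hg, indicator_of_mem (by rwa [mem_ball_zero_iff]), Real.rpow_neg_one]
  ring

theorem t_L7 : S_L7 := by
  intro p w hp hw hnn
  obtain ⟨hs, hc⟩ := hw
  have hcont : Continuous w := hs.continuous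
  have hcs2 : HasCompactSupport (fun x => w x ^ 2) := by
    have := hc.comp_left (g := fun y : ℝ => y ^ 2) (by norm_num)
    exact this
  have hcont2 : Continuous (fun x => w x ^ 2) := hcont.pow 2
  have hfd : Continuous (fderiv ℝ w) := hs.continuous_fderiv (by simp)
  refine ⟨fun x => sq_nonneg _, hcont2.integrable_of_hasCompactSupport hcs2, ?_, coul_int hcont2 hcs2, ?_, ?_⟩
  · have h1 : Continuous (fun x => (w x ^ 2) ^ p) := hcont2.rpow_const (fun x => Or.inr (by linarith))
    have h2 : HasCompactSupport (fun x => (w x ^ 2) ^ p) := by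
      have := hcs2.comp_left (g := fun y : ℝ => y ^ p) (Real.zero_rpow (by linarith))
      exact this
    exact h1.integrable_of_hasCompactSupport h2
  · have h1 : Continuous (fun x => gradient w x) := by
      unfold gradient
      exact (InnerProductSpace.toDual ℝ E3).symm.continuous.comp hfd
    have h2 : HasCompactSupport (fun x => gradient w x) := by
      have h3 : HasCompactSupport (fderiv ℝ w) := hc.fderiv (𝕜 := ℝ)
      have := h3.comp_left (g := fun y => (InnerProductSpace.toDual ℝ E3).symm y) (map_zero _)
      exact this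
    exact h1.memLp_of_hasCompactSupport h2
  · intro φ hφ i
    have e1 : ∀ x, √(w x ^ 2) = w x := fun x => Real.sqrt_sq (hnn x)
    simp only [e1, grad_apply]
    have hφc : Continuous φ := hφ.1.continuous
    have hφd : Continuous (fun x => fderiv ℝ φ x (EuclideanSpace.single i 1)) :=
      (hφ.1.continuous_fderiv (by simp)).clm_apply continuous_const
    have hwd : Continuous (fun x => fderiv ℝ w x (EuclideanSpace.single i 1)) := hfd.clm_apply continuous_const
    refine integral_mul_fderiv_eq_neg_fderiv_mul_of_integrable ?_ ?_ ?_ (fun x _ => hs.differentiable (by simp) x)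
      (fun x _ => hφ.1.differentiable (by simp) x)
    · exact (hwd.mul hφc).integrable_of_hasCompactSupport hφ.2.mul_left
    · exact (hcont.mul hφd).integrable_of_hasCompactSupport hc.mul_right
    · exact (hcont.mul hφc).integrable_of_hasCompactSupport hc.mul_right

end Pool.Agent.Q182.VW
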