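import Pool.Agent.Q182.VW.L1

/-! Project VW (helper62), job L9 (compactness). -/

set_option autoImplicit false

open MeasureTheory Filter Topology Set Metric
open scoped ContDiff ENNReal

namespace Pool.Agent.Q182.VW

open Pool.Agent.Q62.VW

/-- the shells have positive measure -/
theorem shell_pos {a b : ℝ} (ha : 0 < a) (hab : a < b) : 0 < volume {x : E3 | a < ‖x‖ ∧ ‖x‖ < b} := by
  have ho : IsOpen {x : E3 | a < ‖x‖ ∧ ‖x‖ < b} :=
    (isOpen_lt continuous_const continuous_norm).inter (isOpen_lt continuous_norm continuous_const)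
  refine ho.measure_pos volume ⟨EuclideanSpace.single 0 ((a + b) / 2), ?_⟩
  have h1 : ‖(EuclideanSpace.single 0 ((a + b) / 2) : E3)‖ = (a + b) / 2 := by
    rw [EuclideanSpace.norm_single, Real.norm_eq_abs, abs_of_pos (by linarith)]
  show a < ‖(EuclideanSpace.single 0 ((a + b) / 2) : E3)‖ ∧ ‖(EuclideanSpace.single 0 ((a + b) / 2) : E3)‖ < b
  rw [h1]
  constructor <;> linarith

theorem t_L9 (l3 : S_L3) (l8 : S_L8) : S_L9 := by
  intro γ p z m ρ f hγ hp hz hm hnn hconv hf hint htend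
  have hp1 : 1 < p := by linarith
  obtain ⟨hbnn, hb3⟩ := l3 p hp1
  obtain ⟨hcont, r, s, hr, hs, hlt⟩ := l8 γ p z m hγ hp hz hm
  have h0 : ∀ x, 0 ≤ rho0 γ p z m x := (t_L1 γ p z m hγ hp hz hm).1
  -- convergence in L1
  have hL1 : Tendsto (fun n => eLpNorm (fun x => breg p (ρ n x) (rho0 γ p z m x) - 0) 1 volume) atTop (𝓝 0) := by
    have e : ∀ n, eLpNorm (fun x => breg p (ρ n x) (rho0 γ p z m x) - 0) 1 volume =
        ENNReal.ofReal (∫ x, breg p (ρ n x) (rho0 γ p z m x)) := by
      intro n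
      simp only [sub_zero]
      rw [eLpNorm_one_eq_lintegral_enorm, ofReal_integral_eq_lintegral_ofReal (hint n)
        (Eventually.of_forall fun x => hbnn _ _ (hnn n x) (h0 x))]
      refine lintegral_congr fun x => ?_
      rw [Real.enorm_eq_ofReal (hbnn _ _ (hnn n x) (h0 x))]
    simp only [e]
    have := ENNReal.tendsto_ofReal htend
    rwa [ENNReal.ofReal_zero] at this
  have hmeas := tendstoInMeasure_of_tendsto_eLpNorm (μ := volume) (f := fun n x => breg p (ρ n x) (rho0 γ p z m x))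
    (g := fun _ : E3 => (0 : ℝ)) one_ne_zero (fun n => (hint n).aestronglyMeasurable) aestronglyMeasurable_const hL1
  obtain ⟨ns, hns, hae⟩ := hmeas.exists_seq_tendsto_ae
  have hall : ∀ᵐ x : E3, ∀ n, √(ρ n x) = f n ‖x‖ := ae_all_iff.2 hf
  have hgood : ∀ᵐ x : E3, Tendsto (fun i => f (ns i) ‖x‖) atTop (𝓝 (√(prof γ p z m ‖x‖))) := by
    filter_upwards [hae, hall] with x hx1 hx2
    have h2 := hb3 (fun i => ρ (ns i) x) (rho0 γ p z m x) (fun i => hnn _ x) (h0 x) hx1
    have h3 := (Real.continuous_sqrt.tendsto _).comp h2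
    refine h3.congr fun i => ?_
    exact hx2 (ns i)
  -- density of the good radii
  have hdense : ∀ a b : ℝ, 0 < a → a < b → ∃ u : ℝ, a < u ∧ u < b ∧
      Tendsto (fun i => f (ns i) u) atTop (𝓝 (√(prof γ p z m u))) := by
    intro a b ha hab
    have h2 := shell_pos ha hab
    by_contra hcon
    push Not at hcon
    have h3 : {x : E3 | a < ‖x‖ ∧ ‖x‖ < b} ⊆ {x : E3 | ¬ Tendsto (fun i => f (ns i) ‖x‖) atTop (𝓝 (√(prof γ p z m ‖x‖)))} :=
      fun x hx => hcon ‖x‖ hx.1 hx.2
    have h4 := measure_mono_null h3 (ae_iff.1 hgood)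
    exact h2.ne' h4
  -- convexity
  have hcx : ∀ u v w : ℝ, 0 < u → u < v → v < w → Tendsto (fun i => f (ns i) u) atTop (𝓝 (√(prof γ p z m u))) →
      Tendsto (fun i => f (ns i) v) atTop (𝓝 (√(prof γ p z m v))) →
      Tendsto (fun i => f (ns i) w) atTop (𝓝 (√(prof γ p z m w))) →
      (w - u) * √(prof γ p z m v) ≤ (w - v) * √(prof γ p z m u) + (v - u) * √(prof γ p z m w) := by
    intro u v w hu huv hvw tu tv tw
    refine le_of_tendsto_of_tendsto (tv.const_mul (w - u)) ((tu.const_mul (w - v)).add (tw.const_mul (v - u))) ?_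
    refine Eventually.of_forall fun i => ?_
    have hwu : 0 < w - u := by linarith
    have h2 := (hconv (ns i)).2 (show u ∈ Ici 0 from hu.le) (show w ∈ Ici 0 from (by linarith : (0 : ℝ) ≤ w))
      (show 0 ≤ (w - v) / (w - u) from div_nonneg (by linarith) hwu.le)
      (show 0 ≤ (v - u) / (w - u) from div_nonneg (by linarith) hwu.le) (by field_simp; ring)
    simp only [smul_eq_mul] at h2
    have e : (w - v) / (w - u) * u + (v - u) / (w - u) * w = v := by
      field_simp
      ring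
    rw [e] at h2
    have h3 := mul_le_mul_of_nonneg_left h2 hwu.le
    have e2 : (w - u) * ((w - v) / (w - u) * f (ns i) u + (v - u) / (w - u) * f (ns i) w) =
        (w - v) * f (ns i) u + (v - u) * f (ns i) w := by
      field_simp
    rw [e2] at h3
    exact h3
  -- approximation
  have hpos : ∀ k : ℕ, 0 < s / (k + 2) := fun k => by positivity
  have hle : ∀ k : ℕ, s / (k + 2) ≤ s / 2 := fun k => by
    apply div_le_div_of_nonneg_left hs.le (by norm_num)
    have : (0 : ℝ) ≤ k := Nat.cast_nonneg k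
    linarith
  have hsl : Tendsto (fun k : ℕ => s / ((k : ℝ) + 2)) atTop (𝓝 0) := by
    have h2 : Tendsto (fun k : ℕ => (k : ℝ) + 2) atTop atTop := tendsto_natCast_atTop_atTop.atTop_add tendsto_const_nhds
    exact h2.const_div_atTop s
  have happ : ∀ c : ℝ, 0 < c → ∃ u : ℕ → ℝ, (∀ k, c < u k ∧ u k < c + s / (k + 2)) ∧
      (∀ k, Tendsto (fun i => f (ns i) (u k)) atTop (𝓝 (√(prof γ p z m (u k))))) ∧
      Tendsto u atTop (𝓝 c) ∧ Tendsto (fun k => √(prof γ p z m (u k))) atTop (𝓝 (√(prof γ p z m c))) := by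
    intro c hc
    choose u hu using fun k : ℕ => hdense c (c + s / (k + 2)) hc (by linarith [hpos k])
    have hu1 : Tendsto u atTop (𝓝 c) := by
      have h2 : Tendsto (fun k : ℕ => c + s / ((k : ℝ) + 2)) atTop (𝓝 c) := by
        have := hsl.const_add c
        rwa [add_zero] at this
      exact tendsto_of_tendsto_of_tendsto_of_le_of_le tendsto_const_nhds h2 (fun k => (hu k).1.le) (fun k => (hu k).2.1.le)
    refine ⟨u, fun k => ⟨(hu k).1, (hu k).2.1⟩, fun k => (hu k).2.2, hu1, ?_⟩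
    have h2 : ContinuousAt (fun r => √(prof γ p z m r)) c := hcont.continuousAt (Ioi_mem_nhds hc)
    exact h2.tendsto.comp hu1
  obtain ⟨u, hu1, hu2, hu3, hu4⟩ := happ r hr
  obtain ⟨v, hv1, hv2, hv3, hv4⟩ := happ (r + s) (by linarith)
  obtain ⟨w, hw1, hw2, hw3, hw4⟩ := happ (r + 2 * s) (by linarith)
  have hfin := le_of_tendsto_of_tendsto ((hw3.sub hu3).mul hv4) (((hw3.sub hv3).mul hu4).add ((hv3.sub hu3).mul hw4))
    (Eventually.of_forall fun k => hcx (u k) (v k) (w k) (by linarith [(hu1 k).1])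
      (by linarith [(hu1 k).2, (hv1 k).1, hle k]) (by linarith [(hv1 k).2, (hw1 k).1, hle k]) (hu2 k) (hv2 k) (hw2 k))
  have e1 : r + 2 * s - r = 2 * s := by ring
  have e2 : r + 2 * s - (r + s) = s := by ring
  have e3 : r + s - r = s := by ring
  rw [e1, e2, e3] at hfin
  nlinarith

end Pool.Agent.Q182.VW
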